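import Pool.Agent.helper81.PJ.Spec

set_option autoImplicit false

/-!
# Row MS2 of project pj
-/

open Finset

namespace Pool.Agent.PJ

open Pool.Agent.PY2

theorem MS2_one {p : ℕ} [Fact p.Prime] (B : Finset (ZMod p)) (u m : ZMod p) (hu : u ≠ 0) :
    ∑ x : ZMod p, (if u * x - m ∈ B then (1 : ℝ) else 0) = B.card := by
  have e := Fintype.sum_equiv ((Equiv.mulLeft₀ u hu).trans (Equiv.subRight m))
    (fun x : ZMod p => if u * x - m ∈ B then (1 : ℝ) else 0)
    (fun z : ZMod p => if z ∈ B then (1 : ℝ) else 0) (fun x => rfl)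
  rw [e]
  simp

/-- Row MS2. -/
theorem MS2 : MS2_stmt := by
  intro p _ H U B hU
  have h1 : ∀ x y : ZMod p, (nu2 B H U x y : ℝ) = ∑ u ∈ Ioc U (2 * U), ∑ m ∈ range H,
      (if (u : ZMod p) * x - (m : ZMod p) ∈ B then (1 : ℝ) else 0) *
        (if (u : ZMod p) * y - (m : ZMod p) ∈ B then (1 : ℝ) else 0) := by
    intro x y
    unfold nu2
    push_cast
    refine Finset.sum_congr rfl fun u _ => Finset.sum_congr rfl fun m _ => ?_
    by_cases h1 : (u : ZMod p) * x - (m : ZMod p) ∈ B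
    · by_cases h2 : (u : ZMod p) * y - (m : ZMod p) ∈ B
      · simp [h1, h2]
      · simp [h1, h2]
    · simp [h1]
  have h2 : ∀ u ∈ Ioc U (2 * U), (u : ZMod p) ≠ 0 := by
    intro u hu h
    rw [ZMod.natCast_eq_zero_iff] at h
    rw [Finset.mem_Ioc] at hu
    exact absurd (Nat.le_of_dvd (by omega) h) (by omega)
  calc ∑ x : ZMod p, ∑ y : ZMod p, (nu2 B H U x y : ℝ)
      = ∑ x : ZMod p, ∑ y : ZMod p, ∑ u ∈ Ioc U (2 * U), ∑ m ∈ range H,
        (if (u : ZMod p) * x - (m : ZMod p) ∈ B then (1 : ℝ) else 0) *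
          (if (u : ZMod p) * y - (m : ZMod p) ∈ B then (1 : ℝ) else 0) := by
        refine Finset.sum_congr rfl fun x _ => Finset.sum_congr rfl fun y _ => h1 x y
    _ = ∑ x : ZMod p, ∑ u ∈ Ioc U (2 * U), ∑ m ∈ range H, ∑ y : ZMod p,
        (if (u : ZMod p) * x - (m : ZMod p) ∈ B then (1 : ℝ) else 0) *
          (if (u : ZMod p) * y - (m : ZMod p) ∈ B then (1 : ℝ) else 0) := by
        refine Finset.sum_congr rfl fun x _ => ?_
        rw [Finset.sum_comm]
        refine Finset.sum_congr rfl fun u _ => ?_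
        rw [Finset.sum_comm]
    _ = ∑ u ∈ Ioc U (2 * U), ∑ m ∈ range H, ∑ x : ZMod p, ∑ y : ZMod p,
        (if (u : ZMod p) * x - (m : ZMod p) ∈ B then (1 : ℝ) else 0) *
          (if (u : ZMod p) * y - (m : ZMod p) ∈ B then (1 : ℝ) else 0) := by
        rw [Finset.sum_comm]
        refine Finset.sum_congr rfl fun u _ => ?_
        rw [Finset.sum_comm]
    _ = ∑ u ∈ Ioc U (2 * U), ∑ m ∈ range H, (B.card : ℝ) * B.card := by
        refine Finset.sum_congr rfl fun u hu => Finset.sum_congr rfl fun m _ => ?_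
        rw [← Finset.sum_mul_sum, MS2_one B u m (h2 u hu)]
    _ = (U : ℝ) * H * (B.card : ℝ) ^ 2 := by
        rw [Finset.sum_const, Finset.sum_const, Nat.card_Ioc, Finset.card_range, nsmul_eq_mul,
          nsmul_eq_mul]
        have : 2 * U - U = U := by omega
        rw [this]
        ring

end Pool.Agent.PJ
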